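import Pool.Agent.ZGO.StmtsA

/-!
# ZGO, row FTG: Fitting decomposition modulo a normal subgroup of finite index
-/

set_option autoImplicit false

namespace Pool.Agent.ZGO.H83

open Pool.Agent.ZGO

variable {G : Type} [Group G] (ψ : G →* G) (N : Subgroup G)

theorem iter_mem (hψ : ∀ g ∈ N, ψ g ∈ N) (n : ℕ) : ∀ g ∈ N, (⇑ψ)^[n] g ∈ N := by
  induction n with
  | zero => intro g hg; exact hg
  | succ n ih =>
    intro g hg
    rw [Function.iterate_succ_apply']
    exact hψ _ (ih g hg)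

theorem comap_mono (hψ : ∀ g ∈ N, ψ g ∈ N) : Monotone (fun n => N.comap (itr ψ n)) := by
  refine monotone_nat_of_le_succ (fun n => ?_)
  intro g hg
  rw [Subgroup.mem_comap, itr_apply] at hg ⊢
  rw [Function.iterate_succ_apply']
  exact hψ _ hg

theorem range_anti : Antitone (fun n => (itr ψ n).range ⊔ N) := by
  refine antitone_nat_of_succ_le (fun n => ?_)
  refine sup_le_sup_right ?_ N
  rintro _ ⟨h, rfl⟩
  refine ⟨ψ h, ?_⟩
  rw [itr_apply, itr_apply, Function.iterate_succ_apply]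

theorem mem_cs (hψ : ∀ g ∈ N, ψ g ∈ N) (g : G) : g ∈ Cs ψ N ↔ ∃ n, (⇑ψ)^[n] g ∈ N := by
  unfold Cs
  rw [Subgroup.mem_iSup_of_directed (comap_mono ψ N hψ).directed_le]
  refine exists_congr (fun n => ?_)
  rw [Subgroup.mem_comap, itr_apply]

theorem mem_rs (hN : N.Normal) (n : ℕ) (g : G) :
    g ∈ (itr ψ n).range ⊔ N ↔ ∃ h, ((⇑ψ)^[n] h)⁻¹ * g ∈ N := by
  rw [Subgroup.mem_sup_of_normal_right]
  constructor
  · rintro ⟨y, ⟨h, rfl⟩, z, hz, rfl⟩
    refine ⟨h, ?_⟩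
    rw [itr_apply, inv_mul_cancel_left]
    exact hz
  · rintro ⟨h, hh⟩
    refine ⟨(⇑ψ)^[n] h, ⟨h, itr_apply ψ n h⟩, _, hh, ?_⟩
    rw [mul_inv_cancel_left]

theorem mem_ls (hN : N.Normal) (g : G) :
    g ∈ Ls ψ N ↔ ∀ n, ∃ h, ((⇑ψ)^[n] h)⁻¹ * g ∈ N := by
  unfold Ls
  rw [Subgroup.mem_iInf]
  exact forall_congr' (fun n => mem_rs ψ N hN n g)

/-- above a subgroup of finite index there are finitely many subgroups -/
theorem finite_above (hN : N.Normal) (hF : N.FiniteIndex) :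
    {K : Subgroup G | N ≤ K}.Finite := by
  have : Finite (G ⧸ N) := inferInstance
  have hfin : Finite (Subgroup (G ⧸ N)) := inferInstance
  refine Set.Finite.subset (Set.finite_range (fun L : Subgroup (G ⧸ N) =>
    L.comap (QuotientGroup.mk' N))) ?_
  intro K hK
  refine ⟨K.map (QuotientGroup.mk' N), ?_⟩
  show (K.map (QuotientGroup.mk' N)).comap (QuotientGroup.mk' N) = K
  rw [Subgroup.comap_map_eq, QuotientGroup.ker_mk', sup_eq_left]
  exact hK

/-- a monotone sequence with finitely many values stabilises -/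
theorem stab_mono {α : Type*} [PartialOrder α] {f : ℕ → α} (hf : Monotone f)
    (hfin : (Set.range f).Finite) : ∃ n, ∀ m, n ≤ m → f m = f n := by
  obtain ⟨x, hx⟩ := hfin.exists_maximal (Set.range_nonempty f)
  obtain ⟨n, rfl⟩ := hx.1
  refine ⟨n, fun m hm => ?_⟩
  exact le_antisymm (hx.2 ⟨m, rfl⟩ (hf hm)) (hf hm)

theorem ftg : FtgStmt := by
  intro G _ ψ N hN hF hψ
  have hC := mem_cs ψ N hψ
  have hL := mem_ls ψ N hN
  have hNC : N ≤ Cs ψ N := fun g hg => (hC g).2 ⟨0, hg⟩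
  have hNL : N ≤ Ls ψ N := fun g hg => (hL g).2 fun n => ⟨1, by
    have h1 : (⇑ψ)^[n] 1 = 1 := by
      rw [← itr_apply, map_one]
    rw [h1, inv_one, one_mul]
    exact hg⟩
  have hfin := finite_above N hN hF
  obtain ⟨n0, hn0⟩ := stab_mono (comap_mono ψ N hψ) (hfin.subset (by
    rintro _ ⟨n, rfl⟩
    intro g hg
    show g ∈ N.comap (itr ψ n)
    rw [Subgroup.mem_comap, itr_apply]
    exact iter_mem ψ N hψ n g hg))
  have hfin2 : (Set.range (fun n => OrderDual.toDual ((itr ψ n).range ⊔ N))).Finite := by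
    refine Set.Finite.subset (hfin.image OrderDual.toDual) ?_
    rintro _ ⟨n, rfl⟩
    exact ⟨(itr ψ n).range ⊔ N, (le_sup_right : N ≤ (itr ψ n).range ⊔ N), rfl⟩
  obtain ⟨n1, hn1⟩ := stab_mono (f := fun n => OrderDual.toDual ((itr ψ n).range ⊔ N))
    (fun a b hab => OrderDual.toDual_le_toDual.2 (range_anti ψ N hab)) hfin2
  have hn1' : ∀ m, n1 ≤ m → (itr ψ m).range ⊔ N = (itr ψ n1).range ⊔ N := fun m hm =>
    OrderDual.toDual.injective (hn1 m hm)
  obtain ⟨n, hna, hnb⟩ : ∃ n, n0 ≤ n ∧ n1 ≤ n := ⟨max n0 n1, le_max_left _ _, le_max_right _ _⟩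
  -- membership in `Cs` is decided by the `n`-th iterate
  have hCn : ∀ g, g ∈ Cs ψ N → (⇑ψ)^[n] g ∈ N := by
    intro g hg
    obtain ⟨m, hm⟩ := (hC g).1 hg
    have h1 : g ∈ N.comap (itr ψ (max m n)) := by
      refine (comap_mono ψ N hψ (le_max_left m n)) ?_
      show g ∈ N.comap (itr ψ m)
      rw [Subgroup.mem_comap, itr_apply]
      exact hm
    have h2 : N.comap (itr ψ (max m n)) = N.comap (itr ψ n) :=
      (hn0 _ (hna.trans (le_max_right m n))).trans (hn0 n hna).symm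
    rw [h2, Subgroup.mem_comap, itr_apply] at h1
    exact h1
  -- membership in `Ls` is decided by one large image
  have hLn : ∀ m, n1 ≤ m → ∀ g h : G, ((⇑ψ)^[m] h)⁻¹ * g ∈ N → g ∈ Ls ψ N := by
    intro m hm g h hg
    refine (hL g).2 fun k => ?_
    have h1 : g ∈ (itr ψ m).range ⊔ N := (mem_rs ψ N hN m g).2 ⟨h, hg⟩
    have h2 : g ∈ (itr ψ (max k m)).range ⊔ N := by
      rw [hn1' _ (hm.trans (le_max_right k m)), ← hn1' m hm]
      exact h1
    exact (mem_rs ψ N hN k g).1 (range_anti ψ N (le_max_left k m) h2)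
  have hcn : (Cs ψ N).Normal := by
    refine ⟨fun g hg x => ?_⟩
    obtain ⟨m, hm⟩ := (hC g).1 hg
    refine (hC _).2 ⟨m, ?_⟩
    rw [← itr_apply, map_mul, map_mul, map_inv]
    refine hN.conj_mem _ ?_ _
    rw [itr_apply]
    exact hm
  refine ⟨hC, hL, hcn, hNC, hNL, ⟨n, hCn⟩, ?_, ?_, ?_, ?_, ?_⟩
  · intro g
    -- `ψ^n g = ψ^(2 n) h k`
    have h1 : (⇑ψ)^[n] g ∈ (itr ψ (n + n)).range ⊔ N := by
      rw [hn1' (n + n) (by omega), ← hn1' n hnb]
      exact Subgroup.mem_sup_left ⟨g, itr_apply ψ n g⟩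
    obtain ⟨h, hh⟩ := (mem_rs ψ N hN (n + n) _).1 h1
    refine ⟨g * ((⇑ψ)^[n] h)⁻¹, ?_, (⇑ψ)^[n] h, ?_, ?_⟩
    · refine (hC _).2 ⟨n, ?_⟩
      rw [← itr_apply, map_mul, map_inv, itr_apply, itr_apply, ← Function.iterate_add_apply]
      exact hN.mem_comm hh
    · refine hLn n hnb _ h ?_
      rw [inv_mul_cancel]
      exact N.one_mem
    · rw [inv_mul_cancel_right]
  · intro g hgC hgL
    obtain ⟨h, hh⟩ := (hL g).1 hgL n
    -- `ψ^n g ∈ N` and so `ψ^(2n) h ∈ N`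
    have h1 := hCn g hgC
    have h2 := iter_mem ψ N hψ n _ hh
    rw [← itr_apply, map_mul, map_inv, itr_apply, itr_apply, ← Function.iterate_add_apply] at h2
    have h3 : (⇑ψ)^[n + n] h ∈ N := by
      have := N.mul_mem h1 (N.inv_mem h2)
      rw [mul_inv_rev, inv_inv, mul_inv_cancel_left] at this
      exact this
    have h4 : (⇑ψ)^[n] h ∈ N := hCn h ((hC h).2 ⟨n + n, h3⟩)
    have := N.mul_mem h4 hh
    rwa [mul_inv_cancel_left] at this
  · intro g hg
    obtain ⟨m, hm⟩ := (hC g).1 hg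
    refine (hC _).2 ⟨m, ?_⟩
    have e : (⇑ψ)^[m] (ψ g) = ψ ((⇑ψ)^[m] g) := by
      rw [← Function.iterate_succ_apply, Function.iterate_succ_apply']
    rw [e]
    exact hψ _ hm
  · intro g hg
    refine (hL _).2 fun m => ?_
    obtain ⟨h, hh⟩ := (hL g).1 hg m
    refine ⟨ψ h, ?_⟩
    have e : (⇑ψ)^[m] (ψ h) = ψ ((⇑ψ)^[m] h) := by
      rw [← Function.iterate_succ_apply, Function.iterate_succ_apply']
    rw [e, ← map_inv, ← map_mul]
    exact hψ _ hh
  · intro l hl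
    obtain ⟨h, hh⟩ := (hL l).1 hl (n + 1)
    refine ⟨(⇑ψ)^[n] h, ?_, ?_⟩
    · refine hLn n hnb _ h ?_
      rw [inv_mul_cancel]
      exact N.one_mem
    · have e : ψ ((⇑ψ)^[n] h) = (⇑ψ)^[n + 1] h := (Function.iterate_succ_apply' (⇑ψ) n h).symm
      rw [e]
      have := N.inv_mem hh
      rw [mul_inv_rev, inv_inv] at this
      exact this

end Pool.Agent.ZGO.H83
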