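import Pool.Agent.ZGO.StmtsA

/-!
# ZGO, row NPL: nilpotent groups with a contraction into the commutator subgroup are small
-/

set_option autoImplicit false

namespace Pool.Agent.ZGO.H83

open Pool.Agent.ZGO

section
variable {Δ : Type} [Group Δ]

theorem itr_add (ψ : Δ →* Δ) (m n : ℕ) : itr ψ (m + n) = (itr ψ m).comp (itr ψ n) := by
  ext x
  rw [MonoidHom.comp_apply, itr_apply, itr_apply, itr_apply, Function.iterate_add_apply]

theorem map_lcs (hLCS : LcsStmt) (f : Δ →* Δ) (hf : ∀ x, f x ∈ commutator Δ) (i : ℕ) :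
    ((⊤ : Subgroup Δ).lowerCentralSeries i).map f ≤
      (⊤ : Subgroup Δ).lowerCentralSeries (2 * i + 1) := by
  have h1 : (⊤ : Subgroup Δ).map f ≤ (⊤ : Subgroup Δ).lowerCentralSeries 1 := by
    rw [Subgroup.top_lowerCentralSeries_one]
    rintro _ ⟨x, -, rfl⟩
    exact hf x
  induction i with
  | zero => exact h1
  | succ i ih =>
    rw [Subgroup.lowerCentralSeries_succ, Subgroup.map_commutator]
    refine (Subgroup.commutator_mono ih h1).trans ?_
    refine (hLCS Δ (2 * i + 1) 1).trans (le_of_eq ?_)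
    congr 1

theorem range_lcs (hLCS : LcsStmt) (ψ : Δ →* Δ) (n : ℕ) (hf : ∀ x, (⇑ψ)^[n] x ∈ commutator Δ)
    (j : ℕ) : (itr ψ (n * j)).range ≤ (⊤ : Subgroup Δ).lowerCentralSeries (2 ^ j - 1) := by
  induction j with
  | zero => exact le_top
  | succ j ih =>
    have e : n * (j + 1) = n + n * j := by ring
    rw [e, itr_add, MonoidHom.range_comp]
    have hf' : ∀ x, itr ψ n x ∈ commutator Δ := fun x => by
      rw [itr_apply]
      exact hf x
    refine (Subgroup.map_mono ih).trans ?_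
    refine (map_lcs hLCS (itr ψ n) hf' (2 ^ j - 1)).trans (le_of_eq ?_)
    congr 1
    have : 1 ≤ 2 ^ j := Nat.one_le_two_pow
    rw [pow_succ]
    omega

theorem card_le_map [Finite Δ] (f : Δ →* Δ) (K : Subgroup Δ) :
    Nat.card K ≤ Nat.card (K.map f) * Nat.card f.ker := by
  have h1 := Subgroup.card_mul_index (f.ker.subgroupOf K)
  have h2 : (f.ker.subgroupOf K).index = Nat.card (K.map f) := Subgroup.relIndex_ker K f
  have h3 : Nat.card (f.ker.subgroupOf K) ≤ Nat.card f.ker := by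
    refine Nat.card_le_card_of_injective (fun x => ⟨((x : K) : Δ), Subgroup.mem_subgroupOf.1 x.2⟩) ?_
    intro x y hxy
    have := congrArg Subtype.val hxy
    exact Subtype.ext (Subtype.ext this)
  rw [← h1, h2, mul_comm]
  exact Nat.mul_le_mul_left _ h3

theorem card_le_itr [Finite Δ] (ψ : Δ →* Δ) (d : ℕ) (hd : Nat.card ψ.ker ≤ d) (m : ℕ) :
    Nat.card Δ ≤ Nat.card (itr ψ m).range * d ^ m := by
  induction m with
  | zero =>
    rw [pow_zero, mul_one]
    have : (itr ψ 0).range = ⊤ := by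
      rw [MonoidHom.range_eq_top]
      exact Function.surjective_id
    rw [this, Subgroup.card_top]
  | succ m ih =>
    have e : (itr ψ (m + 1)).range = (itr ψ m).range.map ψ := MonoidHom.range_comp _ _
    rw [e]
    have h1 := card_le_map ψ (itr ψ m).range
    calc Nat.card Δ ≤ Nat.card (itr ψ m).range * d ^ m := ih
      _ ≤ (Nat.card ((itr ψ m).range.map ψ) * Nat.card ψ.ker) * d ^ m := Nat.mul_le_mul_right _ h1
      _ ≤ (Nat.card ((itr ψ m).range.map ψ) * d) * d ^ m :=
          Nat.mul_le_mul_right _ (Nat.mul_le_mul_left _ hd)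
      _ = Nat.card ((itr ψ m).range.map ψ) * d ^ (m + 1) := by ring

theorem lcs_strict (hN : Group.IsNilpotent Δ) (k : ℕ)
    (hk : (⊤ : Subgroup Δ).lowerCentralSeries k ≠ ⊥) :
    (⊤ : Subgroup Δ).lowerCentralSeries (k + 1) < (⊤ : Subgroup Δ).lowerCentralSeries k := by
  refine lt_of_le_of_ne (Subgroup.lowerCentralSeries_antitone _ (Nat.le_succ k)) ?_
  intro he
  have h1 : ∀ m, (⊤ : Subgroup Δ).lowerCentralSeries (k + m) =
      (⊤ : Subgroup Δ).lowerCentralSeries k := by
    intro m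
    induction m with
    | zero => rfl
    | succ m ih =>
      rw [← add_assoc, Subgroup.lowerCentralSeries_succ, ih, ← Subgroup.lowerCentralSeries_succ, he]
  obtain ⟨c, hc⟩ := Subgroup.nilpotent_iff_lowerCentralSeries.1 hN
  apply hk
  rw [← h1 c, eq_bot_iff, ← hc]
  exact Subgroup.lowerCentralSeries_antitone _ (Nat.le_add_left c k)

theorem lcs_card [Finite Δ] (hN : Group.IsNilpotent Δ) (i : ℕ)
    (hi : (⊤ : Subgroup Δ).lowerCentralSeries i ≠ ⊥) (k : ℕ) (hk : k ≤ i) :
    Nat.card ((⊤ : Subgroup Δ).lowerCentralSeries k) * 2 ^ k ≤ Nat.card Δ := by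
  induction k with
  | zero =>
    rw [pow_zero, mul_one]
    exact Subgroup.card_le_card_group _
  | succ k ih =>
    have hkb : (⊤ : Subgroup Δ).lowerCentralSeries k ≠ ⊥ := by
      intro h
      apply hi
      rw [eq_bot_iff, ← h]
      exact Subgroup.lowerCentralSeries_antitone _ (by omega)
    have hlt := lcs_strict hN k hkb
    have hdvd := Subgroup.card_dvd_of_le hlt.le
    have hne : Nat.card ((⊤ : Subgroup Δ).lowerCentralSeries (k + 1)) ≠
        Nat.card ((⊤ : Subgroup Δ).lowerCentralSeries k) := by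
      intro h
      exact hlt.ne (Subgroup.eq_of_le_of_card_ge hlt.le h.ge)
    have hpos : 0 < Nat.card ((⊤ : Subgroup Δ).lowerCentralSeries k) := Nat.card_pos
    have h2 : 2 * Nat.card ((⊤ : Subgroup Δ).lowerCentralSeries (k + 1)) ≤
        Nat.card ((⊤ : Subgroup Δ).lowerCentralSeries k) := by
      obtain ⟨c, hc⟩ := hdvd
      rcases c with _ | _ | c
      · rw [mul_zero] at hc
        omega
      · rw [zero_add, mul_one] at hc
        exact absurd hc.symm hne
      · rw [hc, Nat.mul_comm]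
        exact Nat.mul_le_mul_left _ (by omega)
    have h3 := ih (by omega)
    calc Nat.card ((⊤ : Subgroup Δ).lowerCentralSeries (k + 1)) * 2 ^ (k + 1)
        = (2 * Nat.card ((⊤ : Subgroup Δ).lowerCentralSeries (k + 1))) * 2 ^ k := by ring
      _ ≤ Nat.card ((⊤ : Subgroup Δ).lowerCentralSeries k) * 2 ^ k := Nat.mul_le_mul_right _ h2
      _ ≤ Nat.card Δ := h3

end

theorem exists_exp (c : ℕ) : ∃ j : ℕ, c * j + 1 < 2 ^ j := by
  refine ⟨2 * (2 * c + 1), ?_⟩
  have h1 : 2 * c + 1 < 2 ^ (2 * c + 1) := Nat.lt_two_pow_self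
  have h2 : 2 ^ (2 * (2 * c + 1)) = 2 ^ (2 * c + 1) * 2 ^ (2 * c + 1) := by
    rw [← pow_add]
    congr 1
    ring
  rw [h2]
  have h3 : 2 * c + 2 ≤ 2 ^ (2 * c + 1) := h1
  calc c * (2 * (2 * c + 1)) + 1 < (2 * c + 2) * (2 * c + 2) := by ring_nf; omega
    _ ≤ 2 ^ (2 * c + 1) * 2 ^ (2 * c + 1) := Nat.mul_le_mul h3 h3

theorem npl (hLCS : LcsStmt) : NplStmt := by
  intro d n
  obtain ⟨j, hj⟩ := exists_exp (d * n)
  refine ⟨d ^ (n * j), ?_⟩
  intro Δ _ _ ψ hN hd hf
  have hlt : d ^ (n * j) < 2 ^ (2 ^ j - 1) := by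
    calc d ^ (n * j) ≤ (2 ^ d) ^ (n * j) := Nat.pow_le_pow_left (Nat.lt_two_pow_self).le _
      _ = 2 ^ (d * (n * j)) := (pow_mul 2 d (n * j)).symm
      _ < 2 ^ (2 ^ j - 1) := by
          apply Nat.pow_lt_pow_right (by norm_num)
          rw [← mul_assoc]
          omega
  have h1 := range_lcs hLCS ψ n hf j
  have h2 := card_le_itr ψ d hd (n * j)
  have hb : (⊤ : Subgroup Δ).lowerCentralSeries (2 ^ j - 1) = ⊥ := by
    by_contra hne
    have h3 := lcs_card hN _ hne _ le_rfl
    have h4 : Nat.card (itr ψ (n * j)).range ≤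
        Nat.card ((⊤ : Subgroup Δ).lowerCentralSeries (2 ^ j - 1)) :=
      Subgroup.card_le_of_le h1
    have hpos : 0 < Nat.card ((⊤ : Subgroup Δ).lowerCentralSeries (2 ^ j - 1)) := Nat.card_pos
    have h5 := Nat.mul_le_mul_right (d ^ (n * j)) h4
    have h6 := Nat.mul_lt_mul_of_pos_left hlt hpos
    omega
  rw [hb, le_bot_iff] at h1
  rw [h1, Subgroup.card_bot, one_mul] at h2
  exact h2

end Pool.Agent.ZGO.H83
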